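import Pool.Agent.H983R2.ONJ.Fin
import Pool.Agent.H983R2.ONJ.Model
import Pool.Agent.H983R2.ONJ.Gib2
import Pool.Agent.H983R2.ONJ.Per

/-!
# Two-dimensional N-vector models, `N ≥ 3`: finite susceptibility at every temperature
(MP_1fed80_mp, Q1 for `ν = 2`, `N ≥ 3`)

Nearest neighbour N-vector model with free boundary conditions in an arbitrary finite subset
`Λ` of `ℤ²`. The theorem is deduced from the team's theorem on inhomogeneous ferromagnetic
couplings on tori (`corJ_decay`, helpers 717 and 983 with their teams).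
-/

set_option autoImplicit false

noncomputable section

namespace Pool.Agent.Results.MP_1fed80_mp.FiniteSusceptibility

open MeasureTheory Pool.Agent.H5R2.ON Pool.Agent.H717R2.ON3 Pool.Agent.H983R2.ONJ

/-- `{x, y}` is a nearest neighbour pair, `y` to the right of `x` or above `x`. -/
def Bond (x y : ℤ × ℤ) : Prop := y = x + (1, 0) ∨ y = x + (0, 1)

instance (x y : ℤ × ℤ) : Decidable (Bond x y) := by unfold Bond; infer_instance

/-- `∑_{⟨xy⟩ ⊂ Λ} S_x · S_y` -/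
def en {N : ℕ} (Λ : Finset (ℤ × ℤ)) (S : Λ → Sph N) : ℝ :=
  ∑ p : Λ × Λ, if Bond p.1 p.2 then inner ℝ (S p.1 : EuclideanSpace ℝ (Fin N)) (S p.2) else 0

/-- Expectation of `F` in the Gibbs state in `Λ` with free boundary conditions. -/
def free {N : ℕ} (Λ : Finset (ℤ × ℤ)) (β : ℝ) (F : (Λ → Sph N) → ℝ) : ℝ :=
  (∫ S, F S * Real.exp (β * en Λ S) ∂(Measure.pi fun _ => unif N)) /
    ∫ S : Λ → Sph N, Real.exp (β * en Λ S) ∂(Measure.pi fun _ => unif N)

/-- `⟨S_x^i S_y^i⟩` in `Λ` with free boundary conditions (`0` if `x` or `y` is not in `Λ`). -/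
def corr (N : ℕ) (Λ : Finset (ℤ × ℤ)) (β : ℝ) (i : Fin N) (x y : ℤ × ℤ) : ℝ :=
  if h : x ∈ Λ ∧ y ∈ Λ then
    free Λ β fun S : Λ → Sph N => (S ⟨x, h.1⟩ : EuclideanSpace ℝ (Fin N)) i *
      (S ⟨y, h.2⟩ : EuclideanSpace ℝ (Fin N)) i
  else 0

/-- `G` is the two point function `x ↦ ⟨S_0^i S_x^i⟩` of an infinite volume limit with free
boundary conditions. -/
def IsFreeLimit (N : ℕ) (β : ℝ) (i : Fin N) (G : ℤ × ℤ → ℝ) : Prop :=
  ∃ Λ : ℕ → Finset (ℤ × ℤ), (∀ x, ∀ᶠ k in Filter.atTop, x ∈ Λ k) ∧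
    ∀ x, Filter.Tendsto (fun k => corr N (Λ k) β i 0 x) Filter.atTop (nhds (G x))

theorem map_comp_pi {α γ X : Type*} [Fintype α] [Fintype γ] [MeasurableSpace X]
    (μ : Measure X) [IsProbabilityMeasure μ] (f : α → γ) (hf : Function.Injective f) :
    Measure.map (fun S : γ → X => fun a => S (f a)) (Measure.pi fun _ => μ) =
      Measure.pi fun _ => μ := by
  classical
  symm
  apply Measure.pi_eq
  intro s hs
  have hm : Measurable (fun S : γ → X => fun a => S (f a)) :=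
    measurable_pi_lambda _ fun a => measurable_pi_apply (f a)
  rw [Measure.map_apply hm (MeasurableSet.univ_pi hs)]
  have hpre : (fun S : γ → X => fun a => S (f a)) ⁻¹' (Set.pi Set.univ s) =
      Set.pi Set.univ (Function.extend f s fun _ => Set.univ) := by
    ext S
    simp only [Set.mem_preimage, Set.mem_pi, Set.mem_univ, true_implies]
    constructor
    · intro h b
      by_cases hb : ∃ a, f a = b
      · obtain ⟨a, rfl⟩ := hb
        rw [hf.extend_apply]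
        exact h a
      · rw [Function.extend_apply' _ _ _ hb]
        trivial
    · intro h a
      have := h (f a)
      rwa [hf.extend_apply] at this
  rw [hpre, Measure.pi_pi]
  symm
  refine Fintype.prod_of_injective f hf _ _ ?_ ?_
  · intro b hb
    rw [Function.extend_apply' _ _ _ hb]
    exact measure_univ
  · intro a
    rw [hf.extend_apply]

/-- the point of the torus -/
def ct (L : ℕ) (x : ℤ × ℤ) : Tor L := ((x.1 : ZMod L), (x.2 : ZMod L))

theorem ct_sub (L : ℕ) (x y : ℤ × ℤ) : ct L x - ct L y = ct L (x - y) := by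
  simp [ct]

/-- size of a finite set -/
def siz (Λ : Finset (ℤ × ℤ)) : ℕ := ∑ x ∈ Λ, (x.1.natAbs + x.2.natAbs)

theorem le_siz {Λ : Finset (ℤ × ℤ)} {x : ℤ × ℤ} (hx : x ∈ Λ) :
    x.1.natAbs + x.2.natAbs ≤ siz Λ :=
  Finset.single_le_sum (f := fun x : ℤ × ℤ => x.1.natAbs + x.2.natAbs)
    (fun _ _ => Nat.zero_le _) hx

theorem tnorm_ct {Λ : Finset (ℤ × ℤ)} {x y : ℤ × ℤ} (hx : x ∈ Λ) (hy : y ∈ Λ) :
    tnorm (ct (4 * siz Λ + 3) x - ct (4 * siz Λ + 3) y) = znorm (x - y) := by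
  rw [ct_sub]
  have h1 := le_siz hx
  have h2 := le_siz hy
  have h3 : |(x - y).1| * 2 < ((4 * siz Λ + 3 : ℕ) : ℤ) := by
    rw [Prod.fst_sub]
    have e : (|x.1 - y.1| : ℤ) = (x.1 - y.1).natAbs := (Int.natCast_natAbs _).symm
    rw [e]
    omega
  have h4 : |(x - y).2| * 2 < ((4 * siz Λ + 3 : ℕ) : ℤ) := by
    rw [Prod.snd_sub]
    have e : (|x.2 - y.2| : ℤ) = (x.2 - y.2).natAbs := (Int.natCast_natAbs _).symm
    rw [e]
    omega
  have h := tnorm_cast (L := 4 * siz Λ + 3) (x - y).1 (x - y).2 (by exact_mod_cast h3)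
    (by exact_mod_cast h4)
  unfold ct znorm
  rw [h]

theorem znorm_eq_zero {x : ℤ × ℤ} (h : znorm x = 0) : x = 0 := by
  unfold znorm at h
  have h1 : (0 : ℝ) ≤ (x.1 : ℝ) ^ 2 := sq_nonneg _
  have h2 : (0 : ℝ) ≤ (x.2 : ℝ) ^ 2 := sq_nonneg _
  rw [Real.sqrt_eq_zero (by positivity)] at h
  have h3 : (x.1 : ℝ) ^ 2 = 0 := by linarith
  have h4 : (x.2 : ℝ) ^ 2 = 0 := by linarith
  have h5 : (x.1 : ℝ) = 0 := by simpa using h3
  have h6 : (x.2 : ℝ) = 0 := by simpa using h4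
  exact Prod.ext (by exact_mod_cast h5) (by exact_mod_cast h6)

theorem ct_inj {Λ : Finset (ℤ × ℤ)} {x y : ℤ × ℤ} (hx : x ∈ Λ) (hy : y ∈ Λ)
    (h : ct (4 * siz Λ + 3) x = ct (4 * siz Λ + 3) y) : x = y := by
  have h1 := tnorm_ct hx hy
  rw [h, sub_self] at h1
  have h2 : tnorm (0 : Tor (4 * siz Λ + 3)) = 0 := by
    simp [tnorm]
  rw [h2] at h1
  exact sub_eq_zero.1 (znorm_eq_zero h1.symm)

open Classical in
/-- the couplings on the torus -/
def cpl (Λ : Finset (ℤ × ℤ)) (β : ℝ) (e : Tor (4 * siz Λ + 3) × Tor (4 * siz Λ + 3)) : ℝ :=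
  if ∃ x ∈ Λ, ∃ y ∈ Λ, ct (4 * siz Λ + 3) x = e.1 ∧ ct (4 * siz Λ + 3) y = e.2 ∧ Bond x y then β
  else 0

theorem znorm_bond {x y : ℤ × ℤ} (h : Bond x y) : znorm (y - x) = 1 := by
  unfold znorm
  rcases h with h | h <;> subst h <;> simp

theorem expC_cpl (Λ : Finset (ℤ × ℤ)) {β : ℝ} (hβ : 0 ≤ β) :
    ExpC (β * Real.exp 1) 1 (cpl Λ β) := by
  intro e
  unfold cpl
  split_ifs with h
  · obtain ⟨x, hx, y, hy, h1, h2, hb⟩ := h
    refine ⟨hβ, ?_⟩
    rw [← h1, ← h2, tnorm_ct hy hx, znorm_bond hb, mul_assoc, ← Real.exp_add]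
    simp
  · exact ⟨le_rfl, by positivity⟩

theorem pS_cpl {N : ℕ} (Λ : Finset (ℤ × ℤ)) (β : ℝ) (S : Conf N (4 * siz Λ + 3)) :
    pS (cpl Λ β) S = β * en Λ (fun x : Λ => S (ct (4 * siz Λ + 3) x)) := by
  unfold pS en
  rw [Finset.mul_sum]
  symm
  refine Fintype.sum_of_injective
    (fun p : Λ × Λ => (ct (4 * siz Λ + 3) p.1, ct (4 * siz Λ + 3) p.2)) ?_ _ _ ?_ ?_
  · intro p q hpq
    simp only [Prod.mk.injEq] at hpq
    exact Prod.ext (Subtype.ext (ct_inj p.1.2 q.1.2 hpq.1))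
      (Subtype.ext (ct_inj p.2.2 q.2.2 hpq.2))
  · intro e he
    have h : cpl Λ β e = 0 := by
      unfold cpl
      rw [if_neg]
      rintro ⟨x, hx, y, hy, h1, h2, -⟩
      exact he ⟨(⟨x, hx⟩, ⟨y, hy⟩), Prod.ext h1 h2⟩
    rw [h, zero_mul]
  · intro p
    have h : cpl Λ β (ct (4 * siz Λ + 3) p.1, ct (4 * siz Λ + 3) p.2) =
        if Bond p.1 p.2 then β else 0 := by
      unfold cpl
      by_cases hb : Bond p.1 p.2
      · rw [if_pos hb, if_pos]
        exact ⟨p.1, p.1.2, p.2, p.2.2, rfl, rfl, hb⟩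
      · rw [if_neg hb, if_neg]
        rintro ⟨x, hx, y, hy, h1, h2, h3⟩
        rw [ct_inj hx p.1.2 h1, ct_inj hy p.2.2 h2] at h3
        exact hb h3
    simp only [h]
    split_ifs with hb
    · rfl
    · simp

theorem continuous_en {N : ℕ} (Λ : Finset (ℤ × ℤ)) : Continuous (en (N := N) Λ) := by
  unfold en
  refine continuous_finsetSum _ fun p _ => ?_
  split_ifs
  · fun_prop
  · exact continuous_const

theorem corr_eq {N : ℕ} (hN : N ≠ 0) (Λ : Finset (ℤ × ℤ)) (β : ℝ) (i : Fin N) {x y : ℤ × ℤ}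
    (hx : x ∈ Λ) (hy : y ∈ Λ) :
    corr N Λ β i x y = corJ (cpl Λ β) i (ct (4 * siz Λ + 3) x) (ct (4 * siz Λ + 3) y) := by
  have := unif_isProbabilityMeasure N hN
  unfold corr
  rw [dif_pos ⟨hx, hy⟩]
  unfold free corJ
  have hinj : Function.Injective (fun x : Λ => ct (4 * siz Λ + 3) x) := fun p q h =>
    Subtype.ext (ct_inj p.2 q.2 h)
  have hmap := map_comp_pi (unif N) (fun x : Λ => ct (4 * siz Λ + 3) x) hinj
  have hm : Measurable (fun S : Conf N (4 * siz Λ + 3) =>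
      fun x : Λ => S (ct (4 * siz Λ + 3) x)) :=
    measurable_pi_lambda _ fun a => measurable_pi_apply _
  have key : ∀ F : (Λ → Sph N) → ℝ, Continuous F → ∫ S, F S ∂(Measure.pi fun _ => unif N) =
      ∫ S : Conf N (4 * siz Λ + 3), F (fun x : Λ => S (ct (4 * siz Λ + 3) x))
        ∂(prior N (4 * siz Λ + 3)) := by
    intro F hF
    rw [← hmap, integral_map hm.aemeasurable hF.aestronglyMeasurable]
    rfl
  have hce := continuous_en (N := N) Λ
  rw [key _ (by fun_prop), key _ (by fun_prop)]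
  simp only [pS_cpl]
  rfl

theorem znorm_neg (x : ℤ × ℤ) : znorm (0 - x) = znorm x := by
  unfold znorm
  simp

theorem corr_bound {N : ℕ} (hN : N ≠ 0) {β : ℝ} (hβ : 0 ≤ β) {C b : ℝ} (hC : 0 < C)
    (h : ∀ (L : ℕ) [NeZero L] (c : Tor L × Tor L → ℝ), ExpC (β * Real.exp 1) 1 c →
      ∀ (i : Fin N) (x y : Tor L), corJ c i x y ≤ C * Real.exp (-b * tnorm (x - y)))
    (Λ : Finset (ℤ × ℤ)) (i : Fin N) (x y : ℤ × ℤ) :
    0 ≤ corr N Λ β i x y ∧ corr N Λ β i x y ≤ C * Real.exp (-b * znorm (x - y)) := by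
  by_cases hxy : x ∈ Λ ∧ y ∈ Λ
  · rw [corr_eq hN Λ β i hxy.1 hxy.2]
    refine ⟨corJ_nonneg hN (fun e => (expC_cpl Λ hβ e).1) i _ _, ?_⟩
    rw [← tnorm_ct hxy.1 hxy.2]
    exact h _ _ (expC_cpl Λ hβ) i _ _
  · have h0 : corr N Λ β i x y = 0 := by
      unfold corr
      rw [dif_neg hxy]
    rw [h0]
    exact ⟨le_rfl, by positivity⟩

theorem mass_le {G : ℤ × ℤ → ℝ} {C b : ℝ} (hC : 0 < C)
    (hG : ∀ x, G x ≤ C * Real.exp (-b * znorm x)) {μ : ℝ} (hpos : ∀ n : ℕ, 0 < G (n, 0))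
    (hμ : Filter.Tendsto (fun n : ℕ => -(1 / (n : ℝ)) * Real.log (G (n, 0))) Filter.atTop
      (nhds μ)) : b ≤ μ := by
  have h1 : Filter.Tendsto (fun n : ℕ => b - Real.log C * (1 / (n : ℝ))) Filter.atTop
      (nhds (b - Real.log C * 0)) :=
    tendsto_const_nhds.sub (tendsto_const_nhds.mul tendsto_one_div_atTop_nhds_zero_nat)
  rw [mul_zero, sub_zero] at h1
  refine le_of_tendsto_of_tendsto h1 hμ ?_
  filter_upwards [Filter.eventually_gt_atTop 0] with n hn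
  have hn' : (0 : ℝ) < n := by exact_mod_cast hn
  have h2 : znorm ((n : ℤ), 0) = n := by
    unfold znorm
    simp
  have h3 := Real.log_le_log (hpos n) (hG (n, 0))
  rw [Real.log_mul hC.ne' (Real.exp_pos _).ne', Real.log_exp, h2] at h3
  have h4 : (1 / (n : ℝ)) * Real.log (G (n, 0)) ≤ (1 / (n : ℝ)) * (Real.log C + -b * n) :=
    mul_le_mul_of_nonneg_left h3 (by positivity)
  have h5 : (1 / (n : ℝ)) * (Real.log C + -b * n) = Real.log C * (1 / (n : ℝ)) - b := by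
    field_simp
    ring
  linarith

/-- **Q1 for `ν = 2`, `N ≥ 3`.** For every `N ≥ 3` and every `β ≥ 0` there are `C, m > 0` such
that: (1) in every finite `Λ ⊂ ℤ²` with free boundary conditions
`0 ≤ ⟨S_x^i S_y^i⟩ ≤ C exp (-m |x - y|)`; (2) the susceptibility of every finite `Λ` is at most
`C`; (3) every infinite volume limit `G` with free boundary conditions satisfies
`0 ≤ G(x) ≤ C exp (-m |x|)`, has finite susceptibility and, if its mass exists, mass at least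
`m`; (4) such limits exist, along a subsequence of any exhausting sequence of finite sets. -/
theorem result (N : ℕ) (hN : 3 ≤ N) (β : ℝ) (hβ : 0 ≤ β) :
    ∃ C m : ℝ, 0 < C ∧ 0 < m ∧
      (∀ (Λ : Finset (ℤ × ℤ)) (i : Fin N) (x y : ℤ × ℤ),
        0 ≤ corr N Λ β i x y ∧ corr N Λ β i x y ≤ C * Real.exp (-m * znorm (x - y))) ∧
      (∀ (Λ : Finset (ℤ × ℤ)) (i : Fin N) (x : ℤ × ℤ), ∑ y ∈ Λ, corr N Λ β i x y ≤ C) ∧
      (∀ (i : Fin N) (G : ℤ × ℤ → ℝ), IsFreeLimit N β i G →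
        (∀ x, 0 ≤ G x ∧ G x ≤ C * Real.exp (-m * znorm x)) ∧ Summable G ∧ ∑' x, G x ≤ C ∧
        ∀ μ : ℝ, (∀ n : ℕ, 0 < G (n, 0)) →
          Filter.Tendsto (fun n : ℕ => -(1 / (n : ℝ)) * Real.log (G (n, 0))) Filter.atTop
            (nhds μ) → m ≤ μ) ∧
      ∀ (i : Fin N) (Λ : ℕ → Finset (ℤ × ℤ)), (∀ x, ∀ᶠ k in Filter.atTop, x ∈ Λ k) →
        ∃ (φ : ℕ → ℕ) (G : ℤ × ℤ → ℝ), StrictMono φ ∧ IsFreeLimit N β i G ∧
          ∀ x, Filter.Tendsto (fun k => corr N (Λ (φ k)) β i 0 x) Filter.atTop (nhds (G x)) := by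
  obtain ⟨C, b, hC, hb, h⟩ := corJ_decay N hN (β * Real.exp 1) 1 (by positivity) one_pos
  have hB := fun Λ i x y => corr_bound (N := N) (by omega) hβ hC h Λ i x y
  have hs := summable_exp_znorm b hb
  have hs' : Summable fun k : ℤ × ℤ => C * Real.exp (-b * znorm k) := hs.mul_left C
  have hT : 0 ≤ ∑' k : ℤ × ℤ, Real.exp (-b * znorm k) :=
    tsum_nonneg fun k => (Real.exp_pos _).le
  have hCC : C ≤ C * (1 + ∑' k : ℤ × ℤ, Real.exp (-b * znorm k)) := by nlinarith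
  have hC' : 0 < C * (1 + ∑' k : ℤ × ℤ, Real.exp (-b * znorm k)) := by positivity
  have hCT : ∑' k : ℤ × ℤ, C * Real.exp (-b * znorm k) ≤
      C * (1 + ∑' k : ℤ × ℤ, Real.exp (-b * znorm k)) := by
    rw [tsum_mul_left]
    nlinarith
  obtain ⟨C', hC'e⟩ : ∃ C', C' = C * (1 + ∑' k : ℤ × ℤ, Real.exp (-b * znorm k)) := ⟨_, rfl⟩
  rw [← hC'e] at hCC hC' hCT
  refine ⟨C', b, hC', hb, ?_, ?_, ?_, ?_⟩
  · intro Λ i x y
    refine ⟨(hB Λ i x y).1, (hB Λ i x y).2.trans ?_⟩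
    exact mul_le_mul_of_nonneg_right hCC (Real.exp_pos _).le
  · intro Λ i x
    have h1 : ∑ y ∈ Λ, corr N Λ β i x y ≤ ∑ y ∈ Λ, C * Real.exp (-b * znorm (x - y)) :=
      Finset.sum_le_sum fun y _ => (hB Λ i x y).2
    have hsx : Summable fun y : ℤ × ℤ => C * Real.exp (-b * znorm (x - y)) :=
      (Equiv.subLeft x).summable_iff (f := fun k : ℤ × ℤ => C * Real.exp (-b * znorm k)) |>.2 hs'
    have h2 : ∑ y ∈ Λ, C * Real.exp (-b * znorm (x - y)) ≤
        ∑' y : ℤ × ℤ, C * Real.exp (-b * znorm (x - y)) :=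
      hsx.sum_le_tsum Λ fun y _ => by positivity
    have h3 : ∑' y : ℤ × ℤ, C * Real.exp (-b * znorm (x - y)) =
        ∑' k : ℤ × ℤ, C * Real.exp (-b * znorm k) :=
      (Equiv.subLeft x).tsum_eq fun k : ℤ × ℤ => C * Real.exp (-b * znorm k)
    linarith
  · intro i G hG
    obtain ⟨Λ, -, hlim⟩ := hG
    have h0 : ∀ x, 0 ≤ G x := fun x => ge_of_tendsto' (hlim x) fun k => (hB (Λ k) i 0 x).1
    have h1 : ∀ x, G x ≤ C * Real.exp (-b * znorm x) := fun x => le_of_tendsto' (hlim x)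
      fun k => by
        have := (hB (Λ k) i 0 x).2
        rwa [znorm_neg] at this
    have hsG : Summable G := Summable.of_nonneg_of_le h0 h1 hs'
    refine ⟨fun x => ⟨h0 x, (h1 x).trans (mul_le_mul_of_nonneg_right hCC (Real.exp_pos _).le)⟩,
      hsG, (hsG.tsum_le_tsum h1 hs').trans hCT, ?_⟩
    intro μ hpos hμ
    exact mass_le hC h1 hpos hμ
  · intro i Λ hΛ
    have hcomp : IsCompact (Set.pi Set.univ fun _ : ℤ × ℤ => Set.Icc (0 : ℝ) C) :=
      isCompact_univ_pi fun _ => isCompact_Icc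
    obtain ⟨G, -, φ, hφ, hlim⟩ := hcomp.tendsto_subseq
      (x := fun k => fun x => corr N (Λ k) β i 0 x) (fun k x _ => by
        refine ⟨(hB (Λ k) i 0 x).1, (hB (Λ k) i 0 x).2.trans ?_⟩
        have h1 : Real.exp (-b * znorm (0 - x)) ≤ 1 := by
          refine Real.exp_le_one_iff.2 ?_
          have : 0 ≤ znorm (0 - x) := Real.sqrt_nonneg _
          nlinarith
        nlinarith)
    have hlim' := tendsto_pi_nhds.1 hlim
    refine ⟨φ, G, hφ, ⟨fun k => Λ (φ k), fun x => hφ.tendsto_atTop.eventually (hΛ x), hlim'⟩,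
      hlim'⟩

end Pool.Agent.Results.MP_1fed80_mp.FiniteSusceptibility
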